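import Mathlib
import Pool.Agent.W712.WR.Stm

/-! WR-P210: permanence with constant rates (classical solutions) from `PermStm`. -/

set_option autoImplicit false

namespace W580.WR

open W712.WR Set MeasureTheory Filter Topology

variable {n : ℕ}

lemma fld_contDiffOn (E : Finset ((Fin n → ℝ) × (Fin n → ℝ)))
    (k : (Fin n → ℝ) × (Fin n → ℝ) → ℝ) :
    ContDiffOn ℝ 1 (fld E k) {x | ∀ i, 0 < x i} := by
  have : fld E k = fun x => ∑ e ∈ E, (k e * ∏ i, x i ^ (e.1 i)) • (e.2 - e.1) := by
    funext x; rfl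
  rw [this]
  refine ContDiffOn.sum fun e _ => ?_
  have h : ContDiffOn ℝ 1 (fun x : Fin n → ℝ => k e * ∏ i, x i ^ (e.1 i)) {x | ∀ i, 0 < x i} := ?_
  · exact h.fun_smul contDiffOn_const
  refine contDiffOn_const.mul (contDiffOn_prod fun i _ => ?_)
  refine ContDiffOn.rpow_const_of_ne ?_ ?_
  · exact (contDiff_apply ℝ ℝ i).contDiffOn
  · intro x hx
    exact (hx i).ne'

lemma fld_mem (E : Finset ((Fin n → ℝ) × (Fin n → ℝ)))
    (k : (Fin n → ℝ) × (Fin n → ℝ) → ℝ) (x : Fin n → ℝ) :
    fld E k x ∈ Submodule.span ℝ {v | ∃ e ∈ E, v = e.2 - e.1} := by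
  unfold fld
  refine Submodule.sum_mem _ fun e he => Submodule.smul_mem _ _ (Submodule.subset_span ⟨e, he, rfl⟩)

/-- integrals of continuous curves in a subspace stay in the subspace -/
lemma integral_mem_submodule (S : Submodule ℝ (Fin n → ℝ)) (F : ℝ → Fin n → ℝ) (hF : Continuous F)
    (hS : ∀ t, F t ∈ S) (t : ℝ) : (∫ s in (0:ℝ)..t, F s) ∈ S := by
  by_contra hn
  obtain ⟨f, hf, hfS⟩ := Submodule.exists_le_ker_of_notMem hn
  apply hf
  set g : (Fin n → ℝ) →L[ℝ] ℝ := LinearMap.toContinuousLinearMap f with hg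
  have h1 : g (∫ s in (0:ℝ)..t, F s) = ∫ s in (0:ℝ)..t, g (F s) :=
    (ContinuousLinearMap.intervalIntegral_comp_comm g (hF.intervalIntegrable 0 t)).symm
  have h2 : ∀ s, g (F s) = 0 := fun s => hfS (hS s)
  have h3 : g (∫ s in (0:ℝ)..t, F s) = f (∫ s in (0:ℝ)..t, F s) := rfl
  rw [← h3, h1]
  simp [h2]

/-- an absolutely continuous solution of a system with constant rates is given by the integral
of a continuous function -/
lemma classical (E : Finset ((Fin n → ℝ) × (Fin n → ℝ)))
    (k : (Fin n → ℝ) × (Fin n → ℝ) → ℝ) (y : ℝ → Fin n → ℝ)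
    (hy : IsSol E (fun e _ => k e) y (Ici 0)) :
    ∃ F : ℝ → Fin n → ℝ, Continuous F ∧ (∀ t, 0 ≤ t → F t = fld E k (y t)) ∧
      (∀ t, F t = fld E k (y (max t 0))) ∧
      ∀ t, 0 ≤ t → y t = y 0 + ∫ s in (0:ℝ)..t, F s := by
  have hcy : ContinuousOn y (Ici 0) := by
    intro t ht
    have h1 := (hy.ac 0 (by simp) (t + 1) (by simp at ht ⊢; linarith) (by simp at ht; linarith)).continuousOn
    rw [uIcc_of_le (by simp at ht; linarith)] at h1
    have h2 := h1 t ⟨ht, by linarith⟩
    refine h2.mono_of_mem_nhdsWithin ?_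
    rw [← Ici_inter_Iic]
    exact inter_mem self_mem_nhdsWithin (mem_nhdsWithin_of_mem_nhds (Iic_mem_nhds (by linarith)))
  have hcy' : Continuous fun t : ℝ => y (max t 0) := by
    refine hcy.comp_continuous (by fun_prop) ?_
    intro t; simp
  refine ⟨fun t => fld E k (y (max t 0)), ?_, ?_, fun _ => rfl, ?_⟩
  · refine (fld_contDiffOn E k).continuousOn.comp_continuous hcy' ?_
    intro t
    exact hy.pos _ (by simp)
  · intro t ht
    simp only [max_eq_left ht]
  · intro b hb
    set F : ℝ → Fin n → ℝ := fun t => fld E k (y (max t 0)) with hFdef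
    have hF : Continuous F := by
      refine (fld_contDiffOn E k).continuousOn.comp_continuous hcy' ?_
      intro t
      exact hy.pos _ (by simp)
    set Y : ℝ → Fin n → ℝ := fun t => y 0 + ∫ s in (0:ℝ)..t, F s with hY
    have hYd : ∀ t, HasDerivAt Y (F t) t := by
      intro t
      have h1 : HasDerivAt (fun t => ∫ s in (0:ℝ)..t, F s) (F t) t :=
        intervalIntegral.integral_hasDerivAt_right (hF.intervalIntegrable _ _)
          (hF.stronglyMeasurableAtFilter _ _) hF.continuousAt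
      exact h1.const_add (y 0)
    have hYc : ContDiff ℝ 1 Y := by
      rw [contDiff_one_iff_deriv]
      refine ⟨fun t => (hYd t).differentiableAt, ?_⟩
      have : deriv Y = F := by
        funext t; exact (hYd t).deriv
      rw [this]; exact hF
    have hYac : AbsolutelyContinuousOnInterval Y 0 b :=
      ContDiffOn.absolutelyContinuousOnInterval hYc.contDiffOn
    have hyac : AbsolutelyContinuousOnInterval y 0 b :=
      hy.ac 0 (by simp) b (by simpa using hb) hb
    have hdac := hyac.sub hYac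
    have hae : ∀ᵐ t, t ∈ uIcc 0 b → HasDerivAt (y - Y) 0 t := by
      filter_upwards [hy.ode] with t ht htb
      rw [uIcc_of_le hb] at htb
      have h1 := ht htb.1
      have h2 := hYd t
      have h3 := h1.sub h2
      have h4 : fld E (fun e => k e) (y t) - F t = 0 := by
        simp [hFdef, max_eq_left htb.1]
      rw [h4] at h3
      exact h3
    obtain ⟨C, hC⟩ := hdac.const_of_ae_hasDerivAt_zero hae
    have h0 := hC 0 (by simp)
    have hb' := hC b (by simp)
    have h1 : (y - Y) 0 = 0 := by simp [hY]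
    rw [h1] at h0
    rw [← h0] at hb'
    have : y b - Y b = 0 := hb'
    have := sub_eq_zero.1 this
    rw [this]

theorem perm210 : PermStm → Perm210Stm := by
  intro hP n E hWR k hk x₀ hx₀
  -- the bound on the rates
  obtain ⟨ε, hε, hεk⟩ : ∃ ε : ℝ, 0 < ε ∧ ∀ e ∈ E, ε ≤ k e ∧ k e ≤ 1 / ε := by
    clear hWR hP
    induction E using Finset.induction_on with
    | empty => exact ⟨1, one_pos, by simp⟩
    | insert a s ha ih =>
      obtain ⟨ε, hε, h⟩ := ih (fun e he => hk e (Finset.mem_insert_of_mem he))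
      have hka := hk a (Finset.mem_insert_self _ _)
      refine ⟨min ε (min (k a) (1 / k a)), by positivity, ?_⟩
      intro e he
      rcases Finset.mem_insert.1 he with rfl | he
      · refine ⟨(min_le_right _ _).trans (min_le_left _ _), ?_⟩
        rw [le_div_iff₀ (by positivity)]
        calc k e * min ε (min (k e) (1 / k e)) ≤ k e * (1 / k e) := by
              gcongr
              exact (min_le_right _ _).trans (min_le_right _ _)
          _ = 1 := by field_simp
      · refine ⟨(min_le_left _ _).trans (h e he).1, (h e he).2.trans ?_⟩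
        exact one_div_le_one_div_of_le (by positivity) (min_le_left _ _)
  obtain ⟨K, hK, hKc, hmain⟩ := hP n E hWR ε hε x₀ hx₀
  have hmain' := hmain (fun e _ => k e) (fun e _ => measurable_const) (fun e he _ => hεk e he)
  obtain ⟨hex, huni⟩ := hmain'
  refine ⟨K, hK, hKc, fun z hz => ?_⟩
  obtain ⟨y, hy0, hy⟩ := hex z hz
  obtain ⟨F, hF, hFy, hFm, hyF⟩ := classical E k y hy
  have hder : ∀ t, 0 ≤ t → HasDerivWithinAt y (fld E k (y t)) (Ici 0) t := by
    intro t ht
    have h1 : HasDerivAt (fun t => ∫ s in (0:ℝ)..t, F s) (F t) t :=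
      intervalIntegral.integral_hasDerivAt_right (hF.intervalIntegrable _ _)
        (hF.stronglyMeasurableAtFilter _ _) hF.continuousAt
    have h2 := (h1.const_add (y 0)).hasDerivWithinAt (s := Ici 0)
    rw [← hFy t ht]
    exact h2.congr (fun s hs => hyF s hs) (hyF t ht)
  refine ⟨y, hy0, ?_, ?_, ?_⟩
  · intro t ht
    refine ⟨⟨hy.pos t ht, ?_⟩, hder t ht⟩
    have h1 : (∫ s in (0:ℝ)..t, F s) ∈ Submodule.span ℝ {v | ∃ e ∈ E, v = e.2 - e.1} :=
      integral_mem_submodule _ F hF (fun s => by rw [hFm]; exact fld_mem E k _) t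
    have h2 := Submodule.add_mem _ h1 hz.2
    rw [hyF t ht, hy0]
    convert h2 using 1
    abel
  · intro J x hJ h0J hJ0 hx0 hx t ht
    have ht0 : 0 ≤ t := hJ0 ht
    have hsub : Icc 0 t ⊆ J := hJ.out h0J ht
    have hxc : ContinuousOn x (Icc 0 t) := fun s hs =>
      ((hx s (hsub hs)).2.continuousWithinAt).mono hsub
    have hyc : ContinuousOn y (Icc 0 t) := fun s hs =>
      ((hder s hs.1).continuousWithinAt).mono Icc_subset_Ici_self
    -- a common compact box
    obtain ⟨m, M, hm, hmM⟩ : ∃ m M : ℝ, 0 < m ∧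
        ∀ s ∈ Icc 0 t, ∀ i, (m ≤ x s i ∧ x s i ≤ M) ∧ (m ≤ y s i ∧ y s i ≤ M) := by
      have key : ∀ w : ℝ → Fin n → ℝ, ContinuousOn w (Icc 0 t) → (∀ s ∈ Icc 0 t, ∀ i, 0 < w s i) →
          ∀ i, ∃ m M : ℝ, 0 < m ∧ ∀ s ∈ Icc 0 t, m ≤ w s i ∧ w s i ≤ M := by
        intro w hw hwp i
        have hwi : ContinuousOn (fun s => w s i) (Icc 0 t) := fun s hs =>
          (continuous_apply i).continuousAt.comp_continuousWithinAt (hw s hs)
        obtain ⟨a, ha, hamin⟩ := isCompact_Icc.exists_isMinOn (nonempty_Icc.2 ht0) hwi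
        obtain ⟨b, hb, hbmax⟩ := isCompact_Icc.exists_isMaxOn (nonempty_Icc.2 ht0) hwi
        exact ⟨w a i, w b i, hwp a ha i, fun s hs => ⟨hamin hs, hbmax hs⟩⟩
      choose m1 M1 hm1 h1 using key x hxc (fun s hs i => (hx s (hsub hs)).1 i)
      choose m2 M2 hm2 h2 using key y hyc (fun s hs i => hy.pos s hs.1 i)
      have fin : ∀ (g : Fin n → ℝ), (∀ i, 0 < g i) → ∃ c : ℝ, 0 < c ∧ ∀ i, c ≤ g i := by
        intro g hg
        rcases isEmpty_or_nonempty (Fin n) with h | h
        · exact ⟨1, one_pos, fun i => (h.false i).elim⟩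
        · obtain ⟨i0, hi0⟩ := Finite.exists_min g
          exact ⟨g i0, hg i0, hi0⟩
      have fin' : ∀ (g : Fin n → ℝ), ∃ c : ℝ, ∀ i, g i ≤ c := by
        intro g
        exact ⟨∑ i, |g i|, fun i => (le_abs_self _).trans
          (Finset.single_le_sum (f := fun i => |g i|) (fun _ _ => abs_nonneg _) (Finset.mem_univ i))⟩
      obtain ⟨c1, hc1, hc1'⟩ := fin m1 hm1
      obtain ⟨c2, hc2, hc2'⟩ := fin m2 hm2
      obtain ⟨d1, hd1⟩ := fin' M1
      obtain ⟨d2, hd2⟩ := fin' M2
      refine ⟨min c1 c2, max d1 d2, by positivity, fun s hs i => ?_⟩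
      exact ⟨⟨(min_le_left _ _).trans ((hc1' i).trans (h1 i s hs).1),
          (h1 i s hs).2.trans ((hd1 i).trans (le_max_left _ _))⟩,
        ⟨(min_le_right _ _).trans ((hc2' i).trans (h2 i s hs).1),
          (h2 i s hs).2.trans ((hd2 i).trans (le_max_right _ _))⟩⟩
    set B : Set (Fin n → ℝ) := Icc (fun _ => m) (fun _ => M) with hB
    have hBc : IsCompact B := isCompact_Icc
    have hBv : Convex ℝ B := convex_Icc _ _
    have hBp : B ⊆ {x | ∀ i, 0 < x i} := fun v hv i => lt_of_lt_of_le hm (hv.1 i)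
    obtain ⟨L, hL⟩ := ((fld_contDiffOn E k).mono hBp).exists_lipschitzOnWith (by simp) hBv hBc
    have hxB : ∀ s ∈ Icc 0 t, x s ∈ B := fun s hs =>
      ⟨fun i => (hmM s hs i).1.1, fun i => (hmM s hs i).1.2⟩
    have hyB : ∀ s ∈ Icc 0 t, y s ∈ B := fun s hs =>
      ⟨fun i => (hmM s hs i).2.1, fun i => (hmM s hs i).2.2⟩
    have := ODE_solution_unique_of_mem_Icc_right (v := fun _ => fld E k) (s := fun _ => B) (K := L)
      (f := x) (g := y) (a := 0) (b := t) (fun _ _ => hL) hxc ?_
      (fun s hs => hxB s (Ico_subset_Icc_self hs)) hyc ?_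
      (fun s hs => hyB s (Ico_subset_Icc_self hs)) (by rw [hx0, hy0])
    · exact this ⟨ht0, le_rfl⟩
    · intro s hs
      refine ((hx s (hsub (Ico_subset_Icc_self hs))).2.mono hsub).mono_of_mem_nhdsWithin ?_
      exact Icc_mem_nhdsGE_of_mem ⟨hs.1, hs.2⟩
    · intro s hs
      exact (hder s hs.1).mono (Ici_subset_Ici.2 hs.1)
  · obtain ⟨y', hy', hyy', t₀, ht₀, hK'⟩ := huni (Ici 0) y ordConnected_Ici (by simp) (subset_refl _) hy
      (by rw [hy0]; exact hz)
    refine ⟨t₀ + 1, fun t ht => ?_⟩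
    have h0 : (0:ℝ) ≤ t := by linarith
    rw [← hyy' t h0]
    exact hK' t (by linarith)

end W580.WR
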